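import Pool.Agent.Helper12.IntComplexity

/-!
# MP_fe8330_nt: the logarithmic integer complexity is bounded away from 3 for almost all integers

`Expr` is the type of the arithmetic expressions over the basis `{1, +, *}`, `Expr.val` their value,
`Expr.ones` the number of their ones, `complexity n` the integer complexity `‖n‖` and
`logComplexity n = ‖n‖ / log_3 n`.

`‖n‖_log ≥ 3 + 1/200` for infinitely many `n ≥ 2`, and in fact for all but at most `N ^ (97/100)` of the
integers `2 ≤ n ≤ N`, for every `N`.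
-/

namespace Pool.Agent.Results.MP_fe8330_nt.Full

open Pool.Agent.Helper12.IC

/-- Arithmetic expressions which use only the constant `1`, addition and multiplication. -/
inductive Expr : Type
  | one : Expr
  | add : Expr → Expr → Expr
  | mul : Expr → Expr → Expr

/-- The value of an expression. -/
def Expr.val : Expr → ℕ
  | .one => 1
  | .add a b => a.val + b.val
  | .mul a b => a.val * b.val

/-- The number of ones in an expression. -/
def Expr.ones : Expr → ℕ
  | .one => 1
  | .add a b => a.ones + b.ones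
  | .mul a b => a.ones + b.ones

/-- The integer complexity `‖n‖`: the least number of ones in an expression with value `n`. -/
noncomputable def complexity (n : ℕ) : ℕ := sInf {k | ∃ e : Expr, e.val = n ∧ e.ones = k}

/-- The logarithmic complexity `‖n‖ / log_3 n`. -/
noncomputable def logComplexity (n : ℕ) : ℝ := complexity n / Real.logb 3 n

private theorem rep_iff (n k : ℕ) : Rep n k ↔ ∃ e : Expr, e.val = n ∧ e.ones = k := by
  constructor
  · intro h
    induction h with
    | one => exact ⟨.one, rfl, rfl⟩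
    | add _ _ h1 h2 =>
      obtain ⟨e1, rfl, rfl⟩ := h1
      obtain ⟨e2, rfl, rfl⟩ := h2
      exact ⟨.add e1 e2, rfl, rfl⟩
    | mul _ _ h1 h2 =>
      obtain ⟨e1, rfl, rfl⟩ := h1
      obtain ⟨e2, rfl, rfl⟩ := h2
      exact ⟨.mul e1 e2, rfl, rfl⟩
  · rintro ⟨e, rfl, rfl⟩
    induction e with
    | one => exact Rep.one
    | add a b ha hb => exact Rep.add ha hb
    | mul a b ha hb => exact Rep.mul ha hb

private theorem complexity_eq (n : ℕ) : complexity n = cx n := by
  unfold complexity cx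
  congr 1
  ext k
  exact (rep_iff n k).symm

private theorem logb_pos {n : ℕ} (hn : 2 ≤ n) : 0 < Real.logb 3 (n : ℝ) :=
  Real.logb_pos (by norm_num) (by exact_mod_cast (by omega : 1 < n))

private theorem weight_ge {n : ℕ} (hn : 2 ≤ n)
    (hk : (cx n : ℝ) ≤ (3 + 1 / 200) * Real.logb 3 n) :
    (n : ℝ) ^ (-(97 / 100) : ℝ) ≤ w 90 X0 n := by
  have hn0 : (0 : ℝ) < n := by exact_mod_cast (by omega : 0 < n)
  have hw : 0 < w 90 X0 n := by
    unfold w
    have := X0_pos
    positivity
  have hlog3 : 0 < Real.log 3 := Real.log_pos (by norm_num)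
  have hlogn : 0 ≤ Real.log n := Real.log_nonneg (by exact_mod_cast (by omega : 1 ≤ n))
  rw [← Real.log_le_log_iff (Real.rpow_pos_of_pos hn0 _) hw, Real.log_rpow hn0]
  have e2 : Real.log (w 90 X0 n) = 90 * Real.log n + (cx n : ℝ) * Real.log X0 := by
    unfold w
    rw [Real.log_mul (by positivity) (pow_ne_zero _ X0_pos.ne'), Real.log_pow, Real.log_pow]
    push_cast
    ring
  rw [e2, log_X]
  have h43 := log_four_thirds
  have h5 : Real.log (4 / 3) + 30 * Real.log 3 ≤ (3027 / 100) * Real.log 3 := by linarith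
  have hc0 : (0 : ℝ) ≤ cx n := by positivity
  have h6 : (cx n : ℝ) * (Real.log (4 / 3) + 30 * Real.log 3) ≤
      ((3 + 1 / 200) * Real.logb 3 n) * ((3027 / 100) * Real.log 3) := by
    have hpos : 0 ≤ Real.log (4 / 3) + 30 * Real.log 3 := by
      have : 0 ≤ Real.log (4 / 3) := Real.log_nonneg (by norm_num)
      positivity
    exact mul_le_mul hk h5 hpos (le_trans hc0 hk)
  have h7 : ((3 + 1 / 200) * Real.logb 3 n) * ((3027 / 100) * Real.log 3) =
      ((3 + 1 / 200) * (3027 / 100)) * Real.log n := by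
    unfold Real.logb
    field_simp
  rw [h7] at h6
  have h8 : ((3 + 1 / 200 : ℝ) * (3027 / 100)) * Real.log n ≤ (9097 / 100) * Real.log n :=
    mul_le_mul_of_nonneg_right (by norm_num) hlogn
  linarith

/-- (1) `complexity n` is the number of ones of some expression with value `n`, for `n ≥ 1`;
(2) `‖n‖_log ≥ 3 + 1/200` for infinitely many `n ≥ 2`;
(3) the number of the `n` with `2 ≤ n ≤ N` and `‖n‖_log < 3 + 1/200` is at most `N ^ (97/100)`. -/
theorem result :
    (∀ n : ℕ, 1 ≤ n → ∃ e : Expr, e.val = n ∧ e.ones = complexity n) ∧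
    {n : ℕ | 2 ≤ n ∧ 3 + 1 / 200 ≤ logComplexity n}.Infinite ∧
    ∀ N : ℕ, (({n : ℕ | 2 ≤ n ∧ n ≤ N ∧ logComplexity n < 3 + 1 / 200}.ncard : ℕ) : ℝ) ≤
      (N : ℝ) ^ (97 / 100 : ℝ) := by
  refine ⟨fun n hn => ?_, ?_, fun N => ?_⟩
  · obtain ⟨e, he1, he2⟩ := (rep_iff n (cx n)).1 (rep_cx hn)
    exact ⟨e, he1, by rw [he2, complexity_eq]⟩
  · rw [Set.infinite_iff_exists_gt]
    intro a
    obtain ⟨n, hn, h⟩ := main_real (a + 1)
    refine ⟨n, ⟨by omega, ?_⟩, by omega⟩
    rw [logComplexity, complexity_eq, le_div_iff₀ (logb_pos (by omega))]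
    exact h (cx n) (rep_cx (by omega))
  · classical
    rcases Nat.eq_zero_or_pos N with rfl | hN
    · have : {n : ℕ | 2 ≤ n ∧ n ≤ 0 ∧ logComplexity n < 3 + 1 / 200} = ∅ := by
        ext n
        simp only [Set.mem_ofPred_eq, Set.mem_empty_iff_false, iff_false]
        omega
      rw [this, Set.ncard_empty]
      norm_num
    have hN0 : (0 : ℝ) < N := by exact_mod_cast hN
    let T : Finset ℕ := (Finset.Icc 2 N).filter fun n => logComplexity n < 3 + 1 / 200
    have hT : {n : ℕ | 2 ≤ n ∧ n ≤ N ∧ logComplexity n < 3 + 1 / 200} = (T : Set ℕ) := by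
      ext n
      simp only [T, Set.mem_ofPred_eq, Finset.coe_filter, Finset.mem_Icc]
      tauto
    rw [hT, Set.ncard_coe_finset]
    have h1 : ∀ n ∈ T, (N : ℝ) ^ (-(97 / 100) : ℝ) ≤ w 90 X0 n := by
      intro n hn
      simp only [T, Finset.mem_filter, Finset.mem_Icc] at hn
      obtain ⟨⟨h2, h3⟩, h4⟩ := hn
      rw [logComplexity, complexity_eq, div_lt_iff₀ (logb_pos h2)] at h4
      refine le_trans ?_ (weight_ge h2 h4.le)
      exact Real.rpow_le_rpow_of_nonpos (by exact_mod_cast (by omega : 0 < n))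
        (by exact_mod_cast h3) (by norm_num)
    have h2 : (T.card : ℝ) * (N : ℝ) ^ (-(97 / 100) : ℝ) ≤ 1 := by
      calc (T.card : ℝ) * (N : ℝ) ^ (-(97 / 100) : ℝ) = ∑ _n ∈ T, (N : ℝ) ^ (-(97 / 100) : ℝ) := by
            rw [Finset.sum_const, nsmul_eq_mul]
        _ ≤ ∑ n ∈ T, w 90 X0 n := Finset.sum_le_sum h1
        _ ≤ ∑ n ∈ Finset.Icc 2 N, w 90 X0 n :=
            Finset.sum_le_sum_of_subset_of_nonneg (Finset.filter_subset _ _)
              fun n _ _ => w_nonneg X0_pos n
        _ = G 90 X0 N := rfl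
        _ ≤ 1 := G_le_one X0_pos X0_le_one const_bound N
    rw [Real.rpow_neg hN0.le, ← div_eq_mul_inv,
      div_le_one (Real.rpow_pos_of_pos hN0 _)] at h2
    exact h2

end Pool.Agent.Results.MP_fe8330_nt.Full
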